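import Pool.Agent.Helper41.Girth4.Stmts

/-!
# Packet A for MP_246f82_co: decoupling
-/

namespace Pool.Agent.Helper57.Girth4

open Finset Pool.Agent.Helper41.Girth4

/-! ### Counting -/

theorem cnt_eq_sum {n : ℕ} (A : Fin n → Prop) [DecidablePred A] :
    cnt A = ∑ i : Fin n, if A i then 1 else 0 := by
  classical
  unfold cnt
  rw [Nat.card_eq_fintype_card, Fintype.card_subtype]
  simp

theorem cnt_succAbove {n : ℕ} (A : Fin (n + 1) → Prop) [DecidablePred A] (q : Fin (n + 1)) :
    cnt A = (if A q then 1 else 0) + cnt (fun i => A (q.succAbove i)) := by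
  classical
  rw [cnt_eq_sum, cnt_eq_sum, Fin.sum_univ_succAbove _ q]

theorem cnt_congr {n : ℕ} {A B : Fin n → Prop} (h : ∀ i, A i ↔ B i) : cnt A = cnt B := by
  have : A = B := funext fun i => propext (h i)
  rw [this]

universe u

variable {P : Par} {V : Type u} (G : PG V) (ω : V → Lab P)

theorem alive_mono {t : ℕ} {v : V} (h : G.alive ω (t + 1) v) : G.alive ω t v := h.1

theorem alive_le {s t : ℕ} (hst : s ≤ t) {v : V} (h : G.alive ω t v) : G.alive ω s v := by
  induction hst with
  | refl => exact h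
  | step _ ih => exact ih h.1

theorem clk_of_le {u : Fin P.K → Fin P.N} {t : ℕ} (h : P.K ≤ t) : clk P u t = P.N := by
  unfold clk
  rw [dif_neg (by omega)]

/-- The decoupling property at time `t`. -/
def Dec (t : ℕ) : Prop :=
  ∀ (v : V) (q : Fin 4), G.alive ω t (G.nb v q) →
    (G.alive ω t v ↔ Al t (G.unf ω (v, q)))

theorem dec_child {t : ℕ} (hD : Dec G ω t) (v : V) (q : Fin 4) (hv : G.alive ω t v)
    (i : Fin 3) :
    G.alive ω t (G.nb v (q.succAbove i)) ↔ Al t (sub (G.unf ω (v, q)) i) := by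
  have := hD (G.nb v (q.succAbove i)) (G.rev v (q.succAbove i))
    (by rw [G.nb_rev]; exact hv)
  exact this

theorem dec_ring {t : ℕ} (hD : Dec G ω t) (v : V) (q : Fin 4)
    (hp : G.alive ω t (G.nb v q)) :
    G.ringOf ω (G.alive ω t) t v ↔ RgOf (Al t) t (G.unf ω (v, q)) := by
  classical
  unfold PG.ringOf RgOf
  have h1 := hD v q hp
  constructor
  · rintro ⟨hv, hlt⟩
    refine ⟨h1.1 hv, ?_⟩
    have hc : cnt (fun i => G.alive ω t (G.nb v i)) =
        cnt (fun i => Al t (sub (G.unf ω (v, q)) i)) + 1 := by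
      rw [cnt_succAbove _ q, if_pos hp, add_comm]
      congr 1
      exact cnt_congr fun i => dec_child G ω hD v q hv i
    rw [hc] at hlt
    exact hlt
  · rintro ⟨hX, hlt⟩
    have hv := h1.2 hX
    refine ⟨hv, ?_⟩
    have hc : cnt (fun i => G.alive ω t (G.nb v i)) =
        cnt (fun i => Al t (sub (G.unf ω (v, q)) i)) + 1 := by
      rw [cnt_succAbove _ q, if_pos hp, add_comm]
      congr 1
      exact cnt_congr fun i => dec_child G ω hD v q hv i
    rw [hc]
    exact hlt

theorem dec_ring_child {t : ℕ} (hD : Dec G ω t) (v : V) (q : Fin 4) (hv : G.alive ω t v)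
    (i : Fin 3) :
    G.ringOf ω (G.alive ω t) t (G.nb v (q.succAbove i)) ↔
      RgOf (Al t) t (sub (G.unf ω (v, q)) i) := by
  have := dec_ring G ω hD (G.nb v (q.succAbove i)) (G.rev v (q.succAbove i))
    (by rw [G.nb_rev]; exact hv)
  exact this

theorem dec_join {t : ℕ} (hD : Dec G ω t) (v : V) (q : Fin 4)
    (hp : G.alive ω t (G.nb v q)) (hr : ¬ G.ringOf ω (G.alive ω t) t (G.nb v q)) :
    G.joinOf ω (G.alive ω t) t v ↔ StOf (Al t) t (G.unf ω (v, q)) := by
  have h1 := dec_ring G ω hD v q hp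
  unfold PG.joinOf StOf
  constructor
  · rintro ⟨h2, h3⟩
    refine ⟨h1.1 h2, fun i hi => ?_⟩
    exact h3 (q.succAbove i) ((dec_ring_child G ω hD v q h2.1 i).2 hi)
  · rintro ⟨h2, h3⟩
    have h4 := h1.2 h2
    refine ⟨h4, fun i hi => ?_⟩
    rcases eq_or_ne i q with rfl | hne
    · exact absurd hi hr
    · obtain ⟨k, rfl⟩ := Fin.exists_succAbove_eq hne
      exact h3 k ((dec_ring_child G ω hD v q h4.1 k).1 hi)

theorem dec_join_child {t : ℕ} (hD : Dec G ω t) (v : V) (q : Fin 4) (hv : G.alive ω t v)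
    (hr : ¬ G.ringOf ω (G.alive ω t) t v) (i : Fin 3) :
    G.joinOf ω (G.alive ω t) t (G.nb v (q.succAbove i)) ↔
      StOf (Al t) t (sub (G.unf ω (v, q)) i) := by
  have := dec_join G ω hD (G.nb v (q.succAbove i)) (G.rev v (q.succAbove i))
    (by rw [G.nb_rev]; exact hv) (by rw [G.nb_rev]; exact hr)
  exact this

theorem dec (t : ℕ) : Dec G ω t := by
  induction t with
  | zero =>
    intro v q _
    exact Iff.rfl
  | succ t ih =>
    intro v q hp
    obtain ⟨hp1, hp2, hp3⟩ := hp
    have h1 := ih v q hp1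
    have h2 := dec_ring G ω ih v q hp1
    constructor
    · rintro ⟨hv1, hv2, hv3⟩
      refine ⟨h1.1 hv1, fun h => hv2 (h2.2 h), fun i hi => ?_⟩
      exact hv3 _ ((dec_join_child G ω ih v q hv1 hv2 i).2 hi)
    · rintro ⟨hv1, hv2, hv3⟩
      have hv1' := h1.2 hv1
      have hv2' : ¬ G.ringOf ω (G.alive ω t) t v := fun h => hv2 (h2.1 h)
      refine ⟨hv1', hv2', fun i hi => ?_⟩
      rcases eq_or_ne i q with rfl | hne
      · exact hp2 hi.1
      · obtain ⟨k, rfl⟩ := Fin.exists_succAbove_eq hne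
        exact hv3 k ((dec_join_child G ω ih v q hv1' hv2' k).1 hi)

/-! ### Removal times -/

/-- The removal time. -/
noncomputable def rt (v : V) : ℕ :=
  @Nat.findGreatest (fun t => G.alive ω t v) (fun _ => Classical.dec _) P.K

theorem rt_le (v : V) : rt G ω v ≤ P.K := by
  classical
  unfold rt
  exact Nat.findGreatest_le _

theorem alive_rt (v : V) : G.alive ω (rt G ω v) v := by
  classical
  unfold rt
  have h0 : G.alive ω 0 v := trivial
  exact Nat.findGreatest_spec (P := fun t => G.alive ω t v) (Nat.zero_le P.K) h0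

theorem alive_iff {t : ℕ} (ht : t ≤ P.K) (v : V) : G.alive ω t v ↔ t ≤ rt G ω v := by
  classical
  constructor
  · intro h
    exact Nat.le_findGreatest ht h
  · intro h
    exact alive_le G ω h (alive_rt G ω v)

theorem ring_rt {t : ℕ} (ht : t < P.K) {v : V} (h : G.ringOf ω (G.alive ω t) t v) :
    rt G ω v = t := by
  have h1 : t ≤ rt G ω v := (alive_iff G ω ht.le v).1 h.1
  have h2 : ¬ (t + 1 ≤ rt G ω v) := by
    intro h3
    have := (alive_iff G ω (Nat.succ_le_of_lt ht) v).2 h3
    exact this.2.1 h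
  omega

/-- The state of a vertex. -/
noncomputable def st (v : V) : ℕ × Bool :=
  (rt G ω v, @decide (rt G ω v < P.K ∧ G.ringOf ω (G.alive ω (rt G ω v)) (rt G ω v) v)
    (Classical.dec _))

theorem st_ok (v : V) : OK P (st G ω v) := by
  refine ⟨rt_le G ω v, fun h => ?_⟩
  unfold st at h
  exact (@of_decide_eq_true _ (Classical.dec _) h).1

theorem st_ring {t : ℕ} (ht : t < P.K) {v : V} (h : G.ringOf ω (G.alive ω t) t v) :
    (st G ω v).2 = true ∧ (st G ω v).1 = t := by
  have h1 := ring_rt G ω ht h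
  refine ⟨?_, h1⟩
  unfold st
  simp only [decide_eq_true_eq]
  rw [h1]
  exact ⟨ht, h⟩

theorem cnt_sides {t : ℕ} (ht : t ≤ P.K) (v : V) (q : Fin 4) (c : Fin 3)
    (hv : G.alive ω t v) :
    cnt (fun i => G.alive ω t (G.nb v i)) =
      cnt (fun k : Fin 2 => Al t (sub (G.unf ω (v, q)) (c.succAbove k))) +
        nn (rt G ω (G.nb v q)) (rt G ω (G.nb v (q.succAbove c))) t := by
  classical
  rw [cnt_succAbove _ q, cnt_succAbove _ c]
  have h1 : cnt (fun i => G.alive ω t (G.nb v (q.succAbove (c.succAbove i)))) =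
      cnt (fun k : Fin 2 => Al t (sub (G.unf ω (v, q)) (c.succAbove k))) :=
    cnt_congr fun i => dec_child G ω (dec G ω t) v q hv (c.succAbove i)
  rw [h1]
  unfold nn
  simp only [alive_iff G ω ht]
  ring

theorem loc_lemma (v : V) (q : Fin 4) (c : Fin 3) (hv : ¬ G.inB ω v)
    (hp : ¬ G.inB ω (G.nb v q)) (hx : ¬ G.inB ω (G.nb v (q.succAbove c))) :
    Loc (st G ω (G.nb v q)).1 (st G ω v) (st G ω (G.nb v (q.succAbove c))).1
      (((st G ω (G.nb v q)).2 = true ∧ (st G ω (G.nb v q)).1 = (st G ω v).1 ∧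
          ¬ beats (ω v).2 (ω (G.nb v q)).2) ∨
        ((st G ω (G.nb v (q.succAbove c))).2 = true ∧
          (st G ω (G.nb v (q.succAbove c))).1 = (st G ω v).1 ∧
          ¬ beats (ω v).2 (ω (G.nb v (q.succAbove c))).2))
      (ω v) (fun k => sub (G.unf ω (v, q)) (c.succAbove k)) := by
  classical
  have hvK : rt G ω v ≤ P.K := rt_le G ω v
  refine ⟨?_, ?_⟩
  · intro t ht
    have ht' : t < rt G ω v := ht
    have htK : t < P.K := lt_of_lt_of_le ht' hvK
    have hA : G.alive ω (t + 1) v := (alive_iff G ω (by omega) v).2 (by omega)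
    obtain ⟨hA1, hA2, hA3⟩ := hA
    refine ⟨fun hlt => hA2 ⟨hA1, ?_⟩, fun k hk => ?_⟩
    · rw [cnt_sides G ω htK.le v q c hA1]
      exact hlt
    · exact hA3 _ ((dec_join_child G ω (dec G ω t) v q hA1 hA2 (c.succAbove k)).2 hk)
  · have hAl := alive_rt G ω v
    by_cases hlt : rt G ω v < P.K
    · have hcnt := cnt_sides G ω hvK v q c hAl
      by_cases hr : G.ringOf ω (G.alive ω (rt G ω v)) (rt G ω v) v
      · left
        refine ⟨(st_ring G ω hlt hr).1, ?_, ?_⟩
        · have := hr.2
          rw [hcnt] at this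
          exact this
        · have hnj : ¬ G.joinOf ω (G.alive ω (rt G ω v)) (rt G ω v) v :=
            fun h => hv ⟨_, hlt, h⟩
          unfold PG.joinOf at hnj
          push Not at hnj
          obtain ⟨i, hi1, hi2⟩ := hnj hr
          rcases eq_or_ne i q with rfl | hne
          · left; left
            obtain ⟨h1, h2⟩ := st_ring G ω hlt hi1
            exact ⟨h1, h2, hi2⟩
          · obtain ⟨j, rfl⟩ := Fin.exists_succAbove_eq hne
            rcases eq_or_ne j c with rfl | hne'
            · left; right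
              obtain ⟨h1, h2⟩ := st_ring G ω hlt hi1
              exact ⟨h1, h2, hi2⟩
            · obtain ⟨k, rfl⟩ := Fin.exists_succAbove_eq hne'
              right
              exact ⟨k, (dec_ring_child G ω (dec G ω _) v q hAl _).1 hi1, hi2⟩
      · right
        refine ⟨?_, fun _ => ⟨?_, ?_⟩⟩
        · unfold st
          simp only [decide_eq_false_iff_not]
          exact fun h => hr h.2
        · intro h
          apply hr
          refine ⟨hAl, ?_⟩
          rw [hcnt]
          exact h
        · have hna : ¬ G.alive ω (rt G ω v + 1) v := by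
            intro h
            have := (alive_iff G ω (Nat.succ_le_of_lt hlt) v).1 h
            omega
          have : ∃ i, G.joinOf ω (G.alive ω (rt G ω v)) (rt G ω v) (G.nb v i) := by
            by_contra hcon
            push Not at hcon
            exact hna ⟨hAl, hr, hcon⟩
          obtain ⟨i, hi⟩ := this
          rcases eq_or_ne i q with rfl | hne
          · exact absurd ⟨_, hlt, hi⟩ hp
          · obtain ⟨j, rfl⟩ := Fin.exists_succAbove_eq hne
            rcases eq_or_ne j c with rfl | hne'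
            · exact absurd ⟨_, hlt, hi⟩ hx
            · obtain ⟨k, rfl⟩ := Fin.exists_succAbove_eq hne'
              exact ⟨k, (dec_join_child G ω (dec G ω _) v q hAl hr _).1 hi⟩
    · right
      refine ⟨?_, fun h => absurd h hlt⟩
      unfold st
      simp only [decide_eq_false_iff_not]
      exact fun h => hlt h.1

theorem tb_lemma (w : List (Fin 3)) : ∀ (v : V) (q : Fin 4), ¬ G.inB ω (G.nb v q) →
    (∀ k ≤ w.length, ¬ G.inB ω (G.go (v, q) (w.take k)).1) →
    TB (st G ω (G.nb v q)) (ω (G.nb v q)).2 (st G ω v) w (G.unf ω (v, q)) := by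
  induction w with
  | nil => intro v q _ _; trivial
  | cons c w ih =>
    intro v q hp hw
    have hv : ¬ G.inB ω v := hw 0 (Nat.zero_le _)
    have hx : ¬ G.inB ω (G.nb v (q.succAbove c)) := hw 1 (by simp)
    refine ⟨st G ω (G.nb v (q.succAbove c)), st_ok G ω _, loc_lemma G ω v q c hv hp hx, ?_⟩
    have h := ih (G.nb v (q.succAbove c)) (G.rev v (q.succAbove c))
      (by rw [G.nb_rev]; exact hv) (fun k hk => by
        have := hw (k + 1) (by simpa using hk)
        exact this)
    rw [G.nb_rev] at h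
    exact h

theorem stmtPath (P : Par) : StmtPath.{u} P := by
  intro V G ω d w hw
  cases w with
  | nil => trivial
  | cons c w =>
    obtain ⟨v, q⟩ := d
    have hv : ¬ G.inB ω v := hw 0 (Nat.zero_le _)
    refine ⟨st G ω v, st G ω (G.nb v (q.succAbove c)), st_ok G ω _, st_ok G ω _, ?_⟩
    have h := tb_lemma G ω w (G.nb v (q.succAbove c)) (G.rev v (q.succAbove c))
      (by rw [G.nb_rev]; exact hv) (fun k hk => by
        have := hw (k + 1) (by simpa using hk)
        exact this)
    rw [G.nb_rev] at h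
    exact h

end Pool.Agent.Helper57.Girth4
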